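import Pool.Agent.Helper53K9.MK.Main

/-!
# The largest complete class of matroids that does not contain `M(K₄)`

MP_c5be19_co, Q1: the class `𝒦` of the (finite) matroids that have no minor isomorphic to `M(K₄)` is
a complete class. Hence it is the largest complete class that contains no copy of `M(K₄)`.

Proof. By duality and the linkage lemma, induction by a directed graph is a sequence of principal
extensions and deletions, up to duality. So the main point is that a principal extension `M +_F e`
of a matroid `M` in `𝒦` is in `𝒦`. Consider a minor of `M +_F e` isomorphic to `M(K₄)`.
* If `e` is deleted, it is a minor of `M`.
* If `e` is an element of the minor, then after the contraction (rank three) `F` is contained in two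
  different lines, so `F` has rank one and `e` can be replaced by an element of `F`.
* If `e` is contracted, let `M` be replaced by the matroid `M / C`, where `C ∪ {e}` is the contracted
  set. A line `L` of `M(K₄)` with three points has either rank two in `M`, or rank three, and then
  it spans `F`; the other triples have rank three and do not span `F`. The planes spanned by two
  lines of rank three are different, so their intersection, which contains `F` and the common point
  of the lines, has rank at most two. If `F` has rank two, it contains the common points of
  the lines of rank three. So there are at most two such lines. There are exactly two, since three
  lines of rank two would span a plane containing all the points. If `p` is their common point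
  and `s` is an element of `F` not parallel to `p`, then in `M / p` the element `s` and the five other
  points form `M(K₄)`. If `F` has rank one, contract an element of `F` in place of `e`.

The matroid `M(K₄)` exists (`Pool.Agent.Helper53K9.MK.exists_mk4`), and so do the matroids induced
by directed graphs (`Pool.Agent.Helper53K9.MK.exists_induced`).
-/

set_option autoImplicit false

namespace Pool.Agent.Results.MP_c5be19_co.NoK4MinorComplete

open Pool.Agent.Helper53K9.MK

/-- The class of the finite matroids without minors isomorphic to `M(K₄)` is complete, and it is the
largest complete class that contains no matroid isomorphic to `M(K₄)`. -/
theorem result : IsLargestCompleteAvoiding (fun _ M => IsMK4 M) NoK4Minor :=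
  main

end Pool.Agent.Results.MP_c5be19_co.NoK4MinorComplete
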